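import Pool.Agent.W834.NG.Sol

/-!
# `C_h[g]`-sets of optimal order for all `g > (h - 1)!`

A set `A` of integers is a `C_h[g]`-set if it contains no `g` distinct translates of a set with
`h` elements.  For every `h ≥ 2` and every `g ≥ (h - 1)! + 1` there are `C_h[g]`-sets in `[n]`
with at least `c n ^ (1 - 1 / h)` elements.  The set is read off from the graph of the norm of
the field with `p ^ (h - 1)` elements, written with the discrete logarithm of the norm as one
more digit.
-/

set_option autoImplicit false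

namespace Pool.Agent.Results.MP_7f687a_co.ProjectiveNorm

open Finset Pool.Agent.W834.NG

/-- `A` is a `C_h[g]`-set: there are no `h`-element set `X` of integers and `g` distinct integers
`k i` such that every translate `X + k i` is contained in `A` -/
def IsC (h g : ℕ) (A : Finset ℤ) : Prop :=
  ¬ ∃ (X : Finset ℤ) (k : Fin g → ℤ), X.card = h ∧ Function.Injective k ∧
    ∀ i, ∀ x ∈ X, x + k i ∈ A

/-- optimal-order `C_h[g]`-sets exist -/
def Optimal (h g : ℕ) : Prop :=
  ∃ c : ℝ, 0 < c ∧ ∃ N : ℕ, ∀ n : ℕ, N ≤ n → ∃ A : Finset ℤ,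
    (∀ a ∈ A, 1 ≤ a ∧ a ≤ (n : ℤ)) ∧ IsC h g A ∧
      c * (n : ℝ) ^ (1 - 1 / (h : ℝ)) ≤ (A.card : ℝ)

/-! ### Digits -/

theorem digits_zero (B : ℤ) (hB : 0 < B) : ∀ (r : ℕ) (δ : ℕ → ℤ), (∀ i < r, |δ i| < B) →
    ∑ i ∈ range r, B ^ i * δ i = 0 → ∀ i < r, δ i = 0 := by
  intro r
  induction r with
  | zero =>
    intro δ _ _ i hi
    omega
  | succ r ih =>
    intro δ hδ hsum
    rw [Finset.sum_range_succ'] at hsum
    simp only [pow_zero, one_mul] at hsum
    have h1 : ∑ i ∈ range r, B ^ (i + 1) * δ (i + 1) = B * ∑ i ∈ range r, B ^ i * δ (i + 1) := by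
      rw [Finset.mul_sum]
      refine Finset.sum_congr rfl fun i _ => ?_
      ring
    rw [h1] at hsum
    have hdvd : B ∣ δ 0 := ⟨-∑ i ∈ range r, B ^ i * δ (i + 1), by linear_combination hsum⟩
    have h0 : δ 0 = 0 := Int.eq_zero_of_abs_lt_dvd hdvd (hδ 0 (by omega))
    rw [h0, add_zero] at hsum
    have h2 : ∑ i ∈ range r, B ^ i * δ (i + 1) = 0 := by
      rcases mul_eq_zero.1 hsum with h | h
      · omega
      · exact h
    intro i hi
    rcases i with _ | i
    · exact h0
    · exact ih (fun j => δ (j + 1)) (fun j hj => hδ (j + 1) (by omega)) h2 i (by omega)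

/-- differences of numbers with small digits determine the differences of the digits -/
theorem digits_diff (p : ℕ) (hp : 0 < p) (r : ℕ) (a b a' b' : ℕ → ℕ) (ha : ∀ i, a i < p)
    (hb : ∀ i, b i < p) (ha' : ∀ i, a' i < p) (hb' : ∀ i, b' i < p)
    (h : (∑ i ∈ range r, (2 * p : ℤ) ^ i * a i) - ∑ i ∈ range r, (2 * p : ℤ) ^ i * b i =
      (∑ i ∈ range r, (2 * p : ℤ) ^ i * a' i) - ∑ i ∈ range r, (2 * p : ℤ) ^ i * b' i) :
    ∀ i < r, (a i : ℤ) - b i = a' i - b' i := by
  have h1 : ∑ i ∈ range r, (2 * p : ℤ) ^ i * (((a i : ℤ) - b i) - (a' i - b' i)) = 0 := by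
    have e : ∀ i ∈ range r, (2 * p : ℤ) ^ i * (((a i : ℤ) - b i) - (a' i - b' i)) =
        ((2 * p : ℤ) ^ i * a i - (2 * p : ℤ) ^ i * b i) -
          ((2 * p : ℤ) ^ i * a' i - (2 * p : ℤ) ^ i * b' i) := fun i _ => by ring
    rw [Finset.sum_congr rfl e, Finset.sum_sub_distrib, Finset.sum_sub_distrib,
      Finset.sum_sub_distrib]
    linarith
  have h2 := digits_zero (2 * p : ℤ) (by omega) r
    (fun i => ((a i : ℤ) - b i) - (a' i - b' i)) (fun i _ => by
      have e1 := ha i
      have e2 := hb i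
      have e3 := ha' i
      have e4 := hb' i
      rw [abs_lt]
      constructor <;> omega) h1
  intro i hi
  have := h2 i hi
  linarith

theorem digits_le (p : ℕ) (hp : 0 < p) : ∀ (r : ℕ) (a : ℕ → ℕ), (∀ i, a i < p) →
    (∑ i ∈ range r, (2 * p : ℤ) ^ i * a i) + 1 ≤ (2 * p : ℤ) ^ r := by
  intro r
  induction r with
  | zero =>
    intro a _
    simp
  | succ r ih =>
    intro a ha
    rw [Finset.sum_range_succ, pow_succ]
    have h1 := ih a ha
    have h2 : (a r : ℤ) ≤ p - 1 := by
      have := ha r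
      omega
    have h3 : (0 : ℤ) < (2 * p : ℤ) ^ r := by positivity
    have hp' : (1 : ℤ) ≤ p := by exact_mod_cast hp
    nlinarith [mul_le_mul_of_nonneg_left h2 h3.le]

/-! ### The norm -/

section field

variable (p : ℕ) [hp : Fact p.Prime] (m : ℕ)

/-- the number of solutions of `m + 1` norm equations -/
theorem norm_sol {K : Type} [Field K] {m : ℕ} (hm : 0 < m) (φ : K →+* K) (c : Fin (m + 1) → K)
    (hc : Function.Injective c) (a : Fin (m + 1) → K) (S : Finset K) (b : K → K)
    (hS : ∀ s ∈ S, ∀ i, ∏ j : Fin m, φ^[j] (s + c i) = a i * b s) : S.card ≤ m.factorial := by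
  classical
  refine (card_le_F hm φ c a Finset.univ S b (fun s hs i _ => hS s hs i)).trans ?_
  obtain ⟨n, rfl⟩ : ∃ n, m = n + 1 := ⟨m - 1, by omega⟩
  refine F_triv _ n Finset.univ ?_ ?_ Finset.univ ∅ ?_ ?_
  · intro k i _ i' _ h
    apply hc
    have hinj : Function.Injective (φ^[(k : ℕ)]) := Function.Injective.iterate φ.injective k
    exact hinj h
  · simp
  · exact Finset.disjoint_empty_right _
  · simp

/-- the norm of the field with `p ^ m` elements -/
noncomputable def nm (x : GaloisField p m) : ZMod p := Algebra.norm (ZMod p) x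

variable {m} in
theorem nm_eq (hm : m ≠ 0) (x : GaloisField p m) : algebraMap (ZMod p) (GaloisField p m) (nm p m x) =
    ∏ j : Fin m, (frobenius (GaloisField p m) p)^[j] x := by
  rw [nm, FiniteField.algebraMap_norm_eq_prod_pow, GaloisField.finrank p hm, Finset.prod_range]
  refine Finset.prod_congr rfl fun j _ => ?_
  rw [Nat.card_zmod, ← coe_iterateFrobenius]
  rfl

theorem nm_ne {x : GaloisField p m} (hx : x ≠ 0) : nm p m x ≠ 0 := by
  rw [nm]
  exact Algebra.norm_ne_zero_iff.2 hx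

/-- discrete logarithms of the norm -/
theorem exists_log : ∃ (γ : ZMod p) (L : GaloisField p m → ℕ), γ ≠ 0 ∧ (∀ x, L x < p) ∧
    ∀ x, x ≠ 0 → γ ^ L x = nm p m x := by
  classical
  obtain ⟨γ, hγ⟩ := IsCyclic.exists_generator (α := (ZMod p)ˣ)
  have hord : orderOf γ < p := by
    have h1 : orderOf γ ≤ Fintype.card (ZMod p)ˣ := orderOf_le_card_univ
    have h2 : Fintype.card (ZMod p)ˣ = p - 1 := ZMod.card_units p
    have h3 := hp.out.pos
    omega
  have key : ∀ x : GaloisField p m, ∃ k : ℕ, k < p ∧ (x ≠ 0 → (γ : ZMod p) ^ k = nm p m x) := by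
    intro x
    by_cases hx : x = 0
    · exact ⟨0, hp.out.pos, fun h => absurd hx h⟩
    · have hu := hγ (Units.mk0 (nm p m x) (nm_ne p m hx))
      rw [← mem_powers_iff_mem_zpowers, mem_powers_iff_mem_range_orderOf] at hu
      obtain ⟨k, hk, hk2⟩ := Finset.mem_image.1 hu
      refine ⟨k, (Finset.mem_range.1 hk).trans hord, fun _ => ?_⟩
      have := congrArg Units.val hk2
      simpa using this
  choose L hL1 hL2 using key
  exact ⟨γ, L, γ.ne_zero, hL1, fun x hx => hL2 x hx⟩

variable {m} in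
/-- the set of the construction -/
theorem exists_set (hm : m ≠ 0) : ∃ A : Finset ℤ, (∀ a ∈ A, 1 ≤ a ∧ a ≤ (2 * p : ℤ) ^ (m + 1)) ∧
    A.card = p ^ m - 1 ∧ ∀ g, m.factorial < g → IsC (m + 1) g A := by
  classical
  have hfin : Finite (GaloisField p m) := inferInstance
  have : Fintype (GaloisField p m) := Fintype.ofFinite _
  obtain ⟨γ, L, hγ, hL1, hL2⟩ := exists_log p m
  have hpos := hp.out.pos
  let bas := Module.finBasisOfFinrankEq (ZMod p) (GaloisField p m) (GaloisField.finrank p hm)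
  let D : GaloisField p m → ℕ → ℕ := fun x i =>
    if i = 0 then L x else if h : i - 1 < m then (bas.repr x ⟨i - 1, h⟩).val else 0
  have hD : ∀ x i, D x i < p := by
    intro x i
    simp only [D]
    split_ifs
    · exact hL1 x
    · exact ZMod.val_lt _
    · exact hpos
  have hD0 : ∀ x, D x 0 = L x := fun x => by simp [D]
  have hDs : ∀ x (i : Fin m), ((D x (i + 1) : ℕ) : ZMod p) = bas.repr x i := by
    intro x i
    simp only [D]
    rw [if_neg (Nat.succ_ne_zero _), dif_pos (by simp)]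
    simp
  let ψ : GaloisField p m → ℤ := fun x => 1 + ∑ i ∈ range (m + 1), (2 * p : ℤ) ^ i * D x i
  -- differences
  have hdiff : ∀ x y x' y', ψ x - ψ y = ψ x' - ψ y' →
      x - y = x' - y' ∧ (L x : ℤ) - L y = L x' - L y' := by
    intro x y x' y' h
    have h1 := digits_diff p hpos (m + 1) (D x) (D y) (D x') (D y') (hD x) (hD y) (hD x')
      (hD y') (by simp only [ψ] at h; linarith)
    refine ⟨?_, ?_⟩
    · apply bas.repr.injective
      ext i
      have h2 := h1 (i + 1) (by omega)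
      have h3 : (((D x (i + 1) : ℤ) - D y (i + 1) : ℤ) : ZMod p) =
          (((D x' (i + 1) : ℤ) - D y' (i + 1) : ℤ) : ZMod p) := by rw [h2]
      push_cast at h3
      rw [hDs, hDs, hDs, hDs] at h3
      simpa using h3
    · have h2 := h1 0 (by omega)
      rwa [hD0, hD0, hD0, hD0] at h2
  have hinj : Function.Injective ψ := by
    intro x y hxy
    have := (hdiff x y y y (by rw [hxy])).1
    rw [sub_self] at this
    exact sub_eq_zero.1 this
  refine ⟨(univ.erase (0 : GaloisField p m)).image ψ, ?_, ?_, ?_⟩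
  · intro a ha
    obtain ⟨x, _, rfl⟩ := Finset.mem_image.1 ha
    have h1 := digits_le p hpos (m + 1) (D x) (hD x)
    have h2 : (0 : ℤ) ≤ ∑ i ∈ range (m + 1), (2 * p : ℤ) ^ i * D x i :=
      Finset.sum_nonneg fun i _ => by positivity
    constructor
    · simp only [ψ]; linarith
    · simp only [ψ]; linarith
  · rw [Finset.card_image_of_injective _ hinj, Finset.card_erase_of_mem (Finset.mem_univ _),
      Finset.card_univ, ← Nat.card_eq_fintype_card, GaloisField.card p m hm]
  · rintro g hg ⟨X, k, hX, hk, hXk⟩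
    -- the elements of the field
    have hu : ∀ i, ∀ x ∈ X, ∃ u : GaloisField p m, u ≠ 0 ∧ ψ u = x + k i := by
      intro i x hx
      obtain ⟨u, hu, hu2⟩ := Finset.mem_image.1 (hXk i x hx)
      exact ⟨u, Finset.ne_of_mem_erase hu, hu2⟩
    choose! u hu0 hu1 using hu
    have hg0 : 0 < g := by omega
    let i0 : Fin g := ⟨0, hg0⟩
    obtain ⟨x0, hx0⟩ : X.Nonempty := Finset.card_pos.1 (by omega)
    -- an enumeration of `X`
    let e : Fin (m + 1) ≃ X := (Fintype.equivFinOfCardEq (by simpa using hX)).symm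
    let c : Fin (m + 1) → GaloisField p m := fun j => u i0 (e j) - u i0 x0
    have hrel : ∀ i, ∀ x ∈ X, u i x - u i x0 = u i0 x - u i0 x0 ∧
        (L (u i x) : ℤ) - L (u i x0) = L (u i0 x) - L (u i0 x0) := by
      intro i x hx
      apply hdiff
      rw [hu1 i x hx, hu1 i x0 hx0, hu1 i0 x hx, hu1 i0 x0 hx0]
      ring
    have hc : Function.Injective c := by
      intro j j' hjj
      have h1 : u i0 (e j) = u i0 (e j') := by
        simp only [c] at hjj
        exact sub_left_injective hjj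
      have h2 := hu1 i0 (e j) (e j).2
      have h3 := hu1 i0 (e j') (e j').2
      rw [h1] at h2
      have h4 : ((e j : ℤ)) = e j' := by linarith
      exact e.injective (Subtype.ext h4)
    let S : Finset (GaloisField p m) := univ.image fun i => u i x0
    have hS : S.card = g := by
      rw [Finset.card_image_of_injective, Finset.card_univ, Fintype.card_fin]
      intro i i' h
      have h2 := hu1 i x0 hx0
      have h3 := hu1 i' x0 hx0
      simp only at h
      rw [h] at h2
      apply hk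
      linarith
    have hγ' : algebraMap (ZMod p) (GaloisField p m) γ ≠ 0 := by
      rw [Ne, FaithfulSMul.algebraMap_eq_zero_iff]
      exact hγ
    have hfinal := norm_sol (Nat.pos_of_ne_zero hm) (frobenius (GaloisField p m) p) c hc
      (fun j => (algebraMap (ZMod p) (GaloisField p m) γ) ^ ((L (u i0 (e j)) : ℤ) - L (u i0 x0)))
      S (fun s => algebraMap (ZMod p) (GaloisField p m) (nm p m s)) (by
        intro s hs j
        obtain ⟨i, _, rfl⟩ := Finset.mem_image.1 hs
        obtain ⟨h1, h2⟩ := hrel i (e j) (e j).2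
        have h3 : u i x0 + c j = u i (e j) := by
          simp only [c]
          rw [← h1]
          ring
        rw [h3, ← nm_eq p hm, ← hL2 _ (hu0 i _ (e j).2), ← hL2 _ (hu0 i _ hx0), ← h2,
          map_pow, map_pow, zpow_sub₀ hγ', zpow_natCast, zpow_natCast,
          div_mul_cancel₀ _ (pow_ne_zero _ hγ')])
    rw [hS] at hfinal
    omega

end field

/-- **Main result.**  Optimal-order `C_h[g]`-sets exist for all `h ≥ 2` and `g ≥ (h - 1)! + 1`. -/
theorem result (h g : ℕ) (hh : 2 ≤ h) (hg : (h - 1).factorial + 1 ≤ g) : Optimal h g := by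
  obtain ⟨m, rfl⟩ : ∃ m, h = m + 1 := ⟨h - 1, by omega⟩
  have hm : m ≠ 0 := by omega
  have hmr : (0 : ℝ) < ((m + 1 : ℕ) : ℝ) := by positivity
  refine ⟨(1 / 2) * (1 / 4 : ℝ) ^ m, by positivity, 4 ^ (m + 1), ?_⟩
  intro n hn
  set y : ℝ := (n : ℝ) ^ (1 / ((m + 1 : ℕ) : ℝ)) with hy
  have hn0 : (0 : ℝ) ≤ n := Nat.cast_nonneg n
  have hy0 : 0 ≤ y := Real.rpow_nonneg hn0 _
  have hyn : y ^ (m + 1) = n := by
    rw [hy, ← Real.rpow_natCast, ← Real.rpow_mul hn0, one_div, inv_mul_cancel₀ hmr.ne',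
      Real.rpow_one]
  have hy4 : 4 ≤ y := by
    by_contra hcon
    rw [not_le] at hcon
    have h1 : y ^ (m + 1) < 4 ^ (m + 1) := pow_lt_pow_left₀ hcon hy0 (by omega)
    rw [hyn] at h1
    have h2 : ((4 : ℝ)) ^ (m + 1) ≤ n := by exact_mod_cast hn
    linarith
  obtain ⟨p, hp, hp1, hp2⟩ := Nat.exists_prime_lt_and_le_two_mul ⌊y / 4⌋₊ (by
    have : 1 ≤ ⌊y / 4⌋₊ := Nat.le_floor (by push_cast; linarith)
    omega)
  have : Fact p.Prime := ⟨hp⟩
  have hp3 : y / 4 < p := by
    have h1 := Nat.lt_floor_add_one (y / 4)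
    have h2 : ((⌊y / 4⌋₊ + 1 : ℕ) : ℝ) ≤ p := by exact_mod_cast hp1
    push_cast at h2
    linarith
  have hp4 : (2 * p : ℝ) ≤ y := by
    have h1 : (⌊y / 4⌋₊ : ℝ) ≤ y / 4 := Nat.floor_le (by positivity)
    have h2 : (p : ℝ) ≤ 2 * ⌊y / 4⌋₊ := by exact_mod_cast hp2
    linarith
  obtain ⟨A, hA1, hA2, hA3⟩ := exists_set p hm
  refine ⟨A, ?_, hA3 g (by simpa using hg), ?_⟩
  · intro a ha
    obtain ⟨h1, h2⟩ := hA1 a ha
    refine ⟨h1, h2.trans ?_⟩
    have h3 : (2 * p : ℝ) ^ (m + 1) ≤ n := by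
      rw [← hyn]
      exact pow_le_pow_left₀ (by positivity) hp4 _
    exact_mod_cast h3
  · have hpm : 2 ≤ p ^ m := by
      calc 2 ≤ p := hp.two_le
        _ = p ^ 1 := (pow_one p).symm
        _ ≤ p ^ m := Nat.pow_le_pow_right hp.pos (by omega)
    have h1 : (1 / 2 : ℝ) * (p : ℝ) ^ m ≤ A.card := by
      rw [hA2, Nat.cast_sub (by omega)]
      have : (2 : ℝ) ≤ (p : ℝ) ^ m := by exact_mod_cast hpm
      push_cast
      linarith
    have h2 : (n : ℝ) ^ (1 - 1 / ((m + 1 : ℕ) : ℝ)) = y ^ m := by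
      rw [hy, ← Real.rpow_natCast, ← Real.rpow_mul hn0]
      congr 1
      field_simp
      push_cast
      ring
    have h3 : (y / 4) ^ m ≤ (p : ℝ) ^ m := pow_le_pow_left₀ (by positivity) hp3.le _
    rw [h2]
    calc 1 / 2 * (1 / 4 : ℝ) ^ m * y ^ m = 1 / 2 * (y / 4) ^ m := by
          rw [mul_assoc, ← mul_pow]
          congr 2
          ring
      _ ≤ 1 / 2 * (p : ℝ) ^ m := by linarith
      _ ≤ A.card := h1

end Pool.Agent.Results.MP_7f687a_co.ProjectiveNorm
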